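import Mathlib

/-!
# MP_93437d_al: tensor-vanishing maps out of the unit in `D^b(C)`

Proof idea. In a rigid abelian category `C` with enough projectives, `Q = P ⊗ P^*` (`P` a projective
object mapping onto `𝟙`) is nonzero, projective and injective. For `f : 𝟙 ⟶ X` in `D^b(C)`, truncation shows that
`Q ⊗ f` is zero (if `H^0(f) = 0`) or a split monomorphism (if `H^0(f) ≠ 0`, hence mono since `𝟙` is
simple). If both `Q ⊗ f` and `Q ⊗ g` are split monomorphisms then so is `Q ⊗ (f ⊗ g)`, hence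
`f ⊗ g ≠ 0`. So `Z = Q` works, with `n = 1`.
-/

open CategoryTheory MonoidalCategory Limits Triangulated Pretriangulated

namespace Pool.Agent.Results.MP_93437d_al.TensorNilpotence

universe w v u w'

/-! ## Definitions used in the statement -/

/-- The defining conditions of a finite tensor category over a field `k`, for a `k`-linear abelian
rigid monoidal category with bilinear tensor product. -/
structure IsFiniteTensorCategory (k : Type w') [Field k] (C : Type u) [Category.{v} C] [Abelian C]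
    [Linear k C] [MonoidalCategory C] [MonoidalPreadditive C] [MonoidalLinear k C]
    [RigidCategory C] : Prop where
  /-- Hom spaces are finite-dimensional. -/
  finite_hom : ∀ X Y : C, Module.Finite k (X ⟶ Y)
  /-- Every object is noetherian ... -/
  noetherian : ∀ X : C, IsNoetherianObject X
  /-- ... and artinian, i.e. every object has finite length. -/
  artinian : ∀ X : C, IsArtinianObject X
  /-- There are finitely many simple objects up to isomorphism. -/
  finite_simples : ∃ (n : ℕ) (S : Fin n → C), ∀ X : C, Simple X → ∃ i, Nonempty (X ≅ S i)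
  /-- There are enough projectives. -/
  enoughProjectives : EnoughProjectives C
  /-- `End(𝟙) = k`. -/
  end_unit : Function.Bijective (fun a : k => (a • 𝟙 (𝟙_ C) : 𝟙_ C ⟶ 𝟙_ C))

section Defs

variable (C : Type u) [Category.{v} C] [Abelian C] [HasDerivedCategory.{w} C]

/-- The functor `C ⥤ D^b(C)` placing an object in degree `0`. -/
noncomputable def single : C ⥤ DerivedCategory.Bounded C :=
  (DerivedCategory.TStructure.t (C := C)).bounded.lift (DerivedCategory.singleFunctor C 0)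
    (fun _ => ⟨⟨0, inferInstance⟩, ⟨0, inferInstance⟩⟩)

/-- `D^b(C)` with the given monoidal structure is tensor-triangulated (the tensor product is exact
in each variable) and its tensor product extends the one of `C` (the functor `C ⥤ D^b(C)` is
monoidal). -/
structure IsTensorTriangulatedExtension [MonoidalCategory C]
    [MonoidalCategory (DerivedCategory.Bounded C)] : Prop where
  /-- `X ⊗ -` is exact. -/
  tensorLeft_exact : ∀ X : DerivedCategory.Bounded C,
    ∃ _ : (tensorLeft X).CommShift ℤ, (tensorLeft X).IsTriangulated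
  /-- `- ⊗ X` is exact. -/
  tensorRight_exact : ∀ X : DerivedCategory.Bounded C,
    ∃ _ : (tensorRight X).CommShift ℤ, (tensorRight X).IsTriangulated
  /-- `C ⥤ D^b(C)` is monoidal. -/
  single_monoidal : Nonempty (single C).Monoidal

end Defs

section Nilpotent

variable {D : Type u} [Category.{v} D] [MonoidalCategory D]

/-- The tensor power `X^{⊗ n}`. -/
def tensorPow (X : D) : ℕ → D
  | 0 => 𝟙_ D
  | n + 1 => tensorPow X n ⊗ X

/-- The morphism `f^{⊗ n} : 𝟙 ≅ 𝟙^{⊗ n} ⟶ X^{⊗ n}`. -/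
def tensorPowMap {X : D} (f : 𝟙_ D ⟶ X) : (n : ℕ) → (𝟙_ D ⟶ tensorPow X n)
  | 0 => 𝟙 (𝟙_ D)
  | n + 1 => (λ_ (𝟙_ D)).inv ≫ (tensorPowMap f n ⊗ₘ f)

/-- `f : 𝟙 ⟶ X` is `⊗`-nilpotent on `Z`: for some `n ≥ 1` the morphism
`f^{⊗ n} ⊗ id_Z : Z ≅ 𝟙 ⊗ Z ⟶ X^{⊗ n} ⊗ Z` is zero. -/
def NilpotentOn [HasZeroMorphisms D] {X : D} (f : 𝟙_ D ⟶ X) (Z : D) : Prop :=
  ∃ n : ℕ, 1 ≤ n ∧ (λ_ Z).inv ≫ (tensorPowMap f n ▷ Z) = 0

end Nilpotent

/-! ## Proof -/

section Rigid

variable {C : Type u} [Category.{v} C] [Abelian C] [MonoidalCategory C]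
  [MonoidalPreadditive C] [RigidCategory C]

omit [Abelian C] [MonoidalPreadditive C] in
lemma projective_tensor_right (P W : C) [Projective P] : Projective (P ⊗ W) := by
  have : (tensorRight (Wᘁ)).IsLeftAdjoint := ⟨_, ⟨tensorRightAdjunction (Wᘁ) ((Wᘁ)ᘁ)⟩⟩
  exact (tensorRightAdjunction W (Wᘁ)).map_projective P inferInstance

omit [Abelian C] [MonoidalPreadditive C] in
lemma projective_tensor_left (P W : C) [Projective P] : Projective (W ⊗ P) := by
  have : (tensorLeft (ᘁW)).IsLeftAdjoint := ⟨_, ⟨tensorLeftAdjunction (ᘁ(ᘁW)) (ᘁW)⟩⟩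
  exact (tensorLeftAdjunction (ᘁW) W).map_projective P inferInstance

omit [Abelian C] [MonoidalPreadditive C] in
lemma tensorRight_isRightAdjoint (W : C) : (tensorRight W).IsRightAdjoint :=
  ⟨_, ⟨tensorRightAdjunction (ᘁW) W⟩⟩

omit [Abelian C] [MonoidalPreadditive C] in
lemma tensorRight_isLeftAdjoint (W : C) : (tensorRight W).IsLeftAdjoint :=
  ⟨_, ⟨tensorRightAdjunction W (Wᘁ)⟩⟩

omit [Abelian C] [MonoidalPreadditive C] in
lemma tensorLeft_isRightAdjoint (W : C) : (tensorLeft W).IsRightAdjoint :=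
  ⟨_, ⟨tensorLeftAdjunction W (Wᘁ)⟩⟩

omit [Abelian C] [MonoidalPreadditive C] in
lemma tensorLeft_isLeftAdjoint (W : C) : (tensorLeft W).IsLeftAdjoint :=
  ⟨_, ⟨tensorLeftAdjunction (ᘁW) W⟩⟩

/-- If `P` is projective then `Z ⊗ Pᘁ` is injective. -/
lemma injective_tensor_dual (P Z : C) [Projective P] : Injective (Z ⊗ Pᘁ) where
  factors {X Y} g f _ := by
    have := tensorRight_isRightAdjoint P
    have := tensorRight_isLeftAdjoint P
    have hS : (ShortComplex.mk f (cokernel.π f) (cokernel.condition f)).ShortExact :=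
      { exact := ShortComplex.exact_cokernel f
        mono_f := by dsimp; infer_instance
        epi_g := by dsimp; infer_instance }
    have hS' := hS.map_of_exact (tensorRight P)
    have : Projective ((ShortComplex.mk f (cokernel.π f) (cokernel.condition f)).map
        (tensorRight P)).X₃ := projective_tensor_left P (cokernel f)
    let sp := hS'.splittingOfProjective
    let r : Y ⊗ P ⟶ X ⊗ P := sp.r
    have h1 : (f ▷ P) ≫ r = 𝟙 (X ⊗ P) := sp.f_r
    let e := tensorRightHomEquiv X P (Pᘁ) Z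
    let e' := tensorRightHomEquiv Y P (Pᘁ) Z
    refine ⟨e' (r ≫ e.symm g), ?_⟩
    apply e.symm.injective
    rw [tensorRightHomEquiv_symm_naturality]
    change (f ▷ P) ≫ e'.symm (e' (r ≫ e.symm g)) = _
    rw [Equiv.symm_apply_apply, ← Category.assoc, h1, Category.id_comp]

/-- A nonzero projective and injective object. -/
lemma exists_projective_injective [EnoughProjectives C] (h : ¬ IsZero (𝟙_ C)) :
    ∃ Q : C, Projective Q ∧ Injective Q ∧ ¬ IsZero Q := by
  let P := Projective.over (𝟙_ C)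
  have hP : ¬ IsZero P := by
    intro hz
    apply h
    exact IsZero.of_epi (Projective.π (𝟙_ C)) hz
  refine ⟨P ⊗ Pᘁ, projective_tensor_right P _, injective_tensor_dual P P, ?_⟩
  intro hz
  apply hP
  rw [IsZero.iff_id_eq_zero]
  have h0 : η_ P (Pᘁ) = 0 := hz.eq_of_tgt _ _
  have h1 := ExactPairing.evaluation_coevaluation P (Pᘁ)
  rw [h0] at h1
  simp only [MonoidalPreadditive.zero_whiskerRight, zero_comp] at h1
  have h2 : (λ_ P).inv ≫ ((λ_ P).hom ≫ (ρ_ P).inv) ≫ (ρ_ P).hom = 𝟙 P := by simp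
  rw [← h1] at h2
  simpa using h2.symm

/-- In a rigid abelian category in which every nonzero endomorphism of the unit is invertible, and
the unit is artinian and nonzero, the unit is simple. -/
lemma simple_unit [IsArtinianObject (𝟙_ C)] (h : ¬ IsZero (𝟙_ C))
    (hend : ∀ a : 𝟙_ C ⟶ 𝟙_ C, a ≠ 0 → IsIso a) : Simple (𝟙_ C) := by
  obtain ⟨Y, hY⟩ := exists_simple_subobject h
  let X : C := (Y : C)
  let j : X ⟶ 𝟙_ C := Y.arrow
  have hX : Simple X := hY
  have hj : Mono j := by dsimp [j]; infer_instance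
  have hX0 : ¬ IsZero X := Simple.not_isZero X
  -- the dual of `j` is epi
  let k : 𝟙_ C ⟶ Xᘁ := η_ X (Xᘁ) ≫ (j ▷ Xᘁ) ≫ (λ_ (Xᘁ)).hom
  have hk : Epi k := by
    constructor
    intro Z a b hab
    have hm : Mono (j ▷ Z) := by
      have := tensorRight_isRightAdjoint Z
      exact (inferInstance : Mono ((tensorRight Z).map j))
    have key : ∀ c : Xᘁ ⟶ Z, (η_ X (Xᘁ) ≫ X ◁ c) ≫ (j ▷ Z) = k ≫ c ≫ (λ_ Z).inv := by
      intro c
      simp only [k, Category.assoc, leftUnitor_inv_naturality]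
      rw [whisker_exchange]
      simp
    have h1 : η_ X (Xᘁ) ≫ X ◁ a = η_ X (Xᘁ) ≫ X ◁ b := by
      rw [← cancel_mono (j ▷ Z), key, key, ← Category.assoc, hab, Category.assoc]
    have h2 : ∀ c : Xᘁ ⟶ Z, (tensorLeftHomEquiv (𝟙_ C) X (Xᘁ) Z) ((ρ_ (Xᘁ)).hom ≫ c) =
        η_ X (Xᘁ) ≫ X ◁ c := by
      intro c
      have hu : (λ_ (𝟙_ C)).inv ≫ (ρ_ (𝟙_ C)).hom = 𝟙 _ := by
        rw [← unitors_equal, Iso.inv_hom_id]
      simp only [tensorLeftHomEquiv, Equiv.coe_fn_mk, MonoidalCategory.whiskerLeft_comp,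
        whiskerRight_id, Category.assoc]
      simp [reassoc_of% hu]
    have h3 := h2 a
    rw [h1, ← h2 b] at h3
    have h4 := (tensorLeftHomEquiv (𝟙_ C) X (Xᘁ) Z).injective h3
    rwa [cancel_epi] at h4
  have hη : η_ X (Xᘁ) ≠ 0 := by
    intro h0
    apply hX0
    rw [IsZero.iff_id_eq_zero]
    have h1 := ExactPairing.evaluation_coevaluation X (Xᘁ)
    rw [h0] at h1
    simp only [MonoidalPreadditive.zero_whiskerRight, zero_comp] at h1
    have h2 : (λ_ X).inv ≫ ((λ_ X).hom ≫ (ρ_ X).inv) ≫ (ρ_ X).hom = 𝟙 X := by simp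
    rw [← h1] at h2
    simpa using h2.symm
  let φ : X ⟶ X ⊗ Xᘁ := (ρ_ X).inv ≫ X ◁ k
  have hφe : Epi φ := by
    have : Epi (X ◁ k) := by
      have := tensorLeft_isLeftAdjoint X
      exact (inferInstance : Epi ((tensorLeft X).map k))
    exact epi_comp _ _
  have hφ0 : φ ≠ 0 := by
    intro h0
    apply hη
    have h1 : IsZero (X ⊗ Xᘁ) := by
      rw [IsZero.iff_id_eq_zero, ← cancel_epi φ, h0, zero_comp, zero_comp]
    exact h1.eq_of_tgt _ _
  have hφm : Mono φ := mono_of_nonzero_from_simple hφ0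
  have hφi : IsIso φ := isIso_of_mono_of_epi φ
  let s : 𝟙_ C ⟶ X := η_ X (Xᘁ) ≫ inv φ
  have hs : s ≠ 0 := by
    intro h0
    apply hη
    have h1 : s ≫ φ = η_ X (Xᘁ) := by simp [s]
    rw [← h1, h0, zero_comp]
  have hsj : s ≫ j ≠ 0 := by
    intro h0
    apply hs
    rw [← cancel_mono j, h0, zero_comp]
  have hiso := hend (s ≫ j) hsj
  have hje : Epi j := epi_of_epi s j
  have hji : IsIso j := isIso_of_mono_of_epi j
  exact Simple.of_iso (asIso j).symm

end Rigid

section Abstract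

variable {D : Type u} [Category.{v} D] [HasZeroObject D] [Preadditive D] [HasShift D ℤ]
  [∀ n : ℤ, (shiftFunctor D n).Additive] [Pretriangulated D]

lemma split_or_zero (t : TStructure D) (F : D ⥤ D) [F.CommShift ℤ] [F.IsTriangulated]
    (hle : ∀ (Z : D) (n : ℤ), t.IsLE Z n → t.IsLE (F.obj Z) n)
    (hge : ∀ (Z : D) (n : ℤ), t.IsGE Z n → t.IsGE (F.obj Z) n)
    (U : D) (hU : t.IsLE U 0)
    (hproj : ∀ (Z : D), t.IsLE Z (-1) → ∀ φ : F.obj U ⟶ Z, φ = 0)
    (hinj : ∀ (Z : D), t.IsGE Z 1 → ∀ φ : Z ⟶ F.obj U, φ = 0)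
    (hheart : ∀ (H : D), t.IsLE H 0 → t.IsGE H 0 → ∀ h : U ⟶ H,
      h = 0 ∨ ∃ r : F.obj H ⟶ F.obj U, F.map h ≫ r = 𝟙 _)
    (X : D) (f : U ⟶ X) :
    F.map f = 0 ∨ ∃ r : F.obj X ⟶ F.obj U, F.map f ≫ r = 𝟙 _ := by
  obtain ⟨X0, X1, hX0, hX1, i, p, δ, hT⟩ := t.exists_triangle X 0 1 (by norm_num)
  have hX0' : t.IsLE X0 0 := ⟨hX0⟩
  have hX1' : t.IsGE X1 1 := ⟨hX1⟩
  have e1 : ∃ f0 : U ⟶ X0, f = f0 ≫ i := Triangle.coyoneda_exact₂ _ hT f
    (t.zero_of_isLE_of_isGE _ 0 1 (by norm_num) hU hX1')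
  obtain ⟨f0, hf0⟩ := e1
  obtain ⟨Y, H, hY, hH, j, q, δ', hT'⟩ := t.exists_triangle X0 (-1) 0 (by norm_num)
  have hY' : t.IsLE Y (-1) := ⟨hY⟩
  have hHge : t.IsGE H 0 := ⟨hH⟩
  have hHle : t.IsLE H 0 := by
    refine t.isLE₂ _ (rot_of_distTriang _ hT') 0 hX0' ?_
    have : t.IsLE Y 1 := t.isLE_of_le Y (-1) 1
    exact t.isLE_shift Y 1 1 0
  rcases hheart H hHle hHge (f0 ≫ q) with h0 | ⟨r, hr⟩
  · left
    have e2 : ∃ f1 : U ⟶ Y, f0 = f1 ≫ j := Triangle.coyoneda_exact₂ _ hT' f0 h0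
    obtain ⟨f1, hf1⟩ := e2
    have h2 : F.map f1 = 0 := hproj _ (hle _ _ hY') _
    rw [hf0, hf1, F.map_comp, F.map_comp, h2, zero_comp, zero_comp]
  · right
    have hFT := F.map_distinguished _ hT
    have hinv := inv_rot_of_distTriang _ hFT
    have e3 : ∃ g : F.obj X ⟶ F.obj U, F.map q ≫ r = F.map i ≫ g := by
      refine Triangle.yoneda_exact₂ _ hinv (F.map q ≫ r) ?_
      refine hinj _ ?_ _
      have h1 : t.IsGE (F.obj X1) 1 := hge _ _ hX1'
      have h2 : t.IsGE ((F.obj X1)⟦(-1 : ℤ)⟧) 2 := t.isGE_shift _ 1 (-1) 2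
      exact t.isGE_of_ge ((F.obj X1)⟦(-1 : ℤ)⟧) 1 2
    obtain ⟨g, hg⟩ := e3
    refine ⟨g, ?_⟩
    rw [hf0, F.map_comp, Category.assoc, ← hg, ← Category.assoc, ← F.map_comp, hr]

/-- dévissage: an exact functor which maps the heart to the heart is t-exact on bounded objects. -/
lemma isLE_isGE_of_heart [IsTriangulated D] (t : TStructure D) (F : D ⥤ D) [F.CommShift ℤ]
    [F.IsTriangulated]
    (hheart : ∀ (Z : D), t.IsLE Z 0 → t.IsGE Z 0 → t.IsLE (F.obj Z) 0 ∧ t.IsGE (F.obj Z) 0)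
    (d : ℕ) : ∀ (Z : D) (a b : ℤ), b < a + d → t.IsGE Z a → t.IsLE Z b →
      t.IsGE (F.obj Z) a ∧ t.IsLE (F.obj Z) b := by
  have hsingle : ∀ (Z : D) (n : ℤ), t.IsGE Z n → t.IsLE Z n →
      t.IsGE (F.obj Z) n ∧ t.IsLE (F.obj Z) n := by
    intro Z n h1 h2
    have h3 : t.IsLE (Z⟦n⟧) 0 := t.isLE_shift Z n n 0
    have h4 : t.IsGE (Z⟦n⟧) 0 := t.isGE_shift Z n n 0
    obtain ⟨h5, h6⟩ := hheart _ h3 h4
    have e : F.obj (Z⟦n⟧) ≅ (F.obj Z)⟦n⟧ := (F.commShiftIso n).app Z
    have h7 : t.IsLE ((F.obj Z)⟦n⟧) 0 := t.isLE_of_iso e 0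
    have h8 : t.IsGE ((F.obj Z)⟦n⟧) 0 := t.isGE_of_iso e 0
    exact ⟨t.isGE_of_shift _ n n 0, t.isLE_of_shift _ n n 0⟩
  induction d with
  | zero =>
    intro Z a b hab h1 h2
    have hz : IsZero Z := t.isZero Z b a (by simpa using hab)
    have hz' : IsZero (F.obj Z) := F.map_isZero hz
    exact ⟨t.isGE_of_isZero hz' _, t.isLE_of_isZero hz' _⟩
  | succ d ih =>
    intro Z a b hab h1 h2
    by_cases hba : b < a
    · have hz : IsZero Z := t.isZero Z b a hba
      have hz' : IsZero (F.obj Z) := F.map_isZero hz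
      exact ⟨t.isGE_of_isZero hz' _, t.isLE_of_isZero hz' _⟩
    push Not at hba
    have hT := F.map_distinguished _ (t.triangleLTGE_distinguished b Z)
    have h3 : t.IsGE (F.obj ((t.truncLT b).obj Z)) a ∧
        t.IsLE (F.obj ((t.truncLT b).obj Z)) (b - 1) := by
      refine ih _ a (b - 1) (by push_cast at hab; linarith) inferInstance inferInstance
    have h4 : t.IsGE (F.obj ((t.truncGE b).obj Z)) b ∧
        t.IsLE (F.obj ((t.truncGE b).obj Z)) b := hsingle _ b inferInstance inferInstance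
    obtain ⟨h31, h32⟩ := h3
    obtain ⟨h41, h42⟩ := h4
    refine ⟨t.isGE₂ _ hT a h31 ?_, t.isLE₂ _ hT b ?_ h42⟩
    · exact t.isGE_of_ge (F.obj ((t.truncGE b).obj Z)) a b
    · exact t.isLE_of_le (F.obj ((t.truncLT b).obj Z)) (b - 1) b

end Abstract

section Derived

variable {C : Type u} [Category.{v} C] [Abelian C] [HasDerivedCategory.{w} C]

open DerivedCategory

lemma hom_single_zero_of_projective (P : C) [Projective P] (Z : DerivedCategory C)
    (hZ : Z.IsLE (-1)) (φ : (DerivedCategory.singleFunctor C 0).obj P ⟶ Z) : φ = 0 := by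
  obtain ⟨K, hK, ⟨e⟩⟩ := Z.exists_iso_Q_obj_of_isLE (-1)
  let S : CochainComplex C ℤ := (CochainComplex.singleFunctor C 0).obj P
  have hS1 : S.IsStrictlyLE 0 := by dsimp [S]; infer_instance
  have hS2 : ∀ n : ℤ, Projective (S.X n) := by
    intro n
    by_cases hn : n = 0
    · subst hn
      exact Projective.of_iso (HomologicalComplex.singleObjXSelf (ComplexShape.up ℤ) 0 P).symm
        inferInstance
    · have hz : IsZero (S.X n) := HomologicalComplex.isZero_single_obj_X _ _ _ _ hn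
      exact Projective.of_iso hz.isoZero.symm inferInstance
  have hS : S.IsKProjective := CochainComplex.isKProjective_of_projective S 0
  have hbij := CochainComplex.IsKProjective.Qh_map_bijective S
    ((HomotopyCategory.quotient C (ComplexShape.up ℤ)).obj K)
  obtain ⟨ψ, hψ⟩ := hbij.2 (show (DerivedCategory.Qh.obj _ ⟶ DerivedCategory.Qh.obj _) from φ ≫ e.hom)
  obtain ⟨ψ', rfl⟩ := (HomotopyCategory.quotient C (ComplexShape.up ℤ)).map_surjective ψ
  have h0 : ψ' = 0 := by
    ext n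
    by_cases hn : n = 0
    · subst hn
      exact (K.isZero_of_isStrictlyLE (-1) 0 (by norm_num)).eq_of_tgt _ _
    · exact (HomologicalComplex.isZero_single_obj_X _ _ _ _ hn).eq_of_src _ _
  have h1 : φ ≫ e.hom = 0 := by
    rw [h0] at hψ
    rw [Functor.map_zero, Functor.map_zero] at hψ
    exact hψ.symm
  rw [← cancel_mono e.hom, h1, zero_comp]

lemma hom_to_single_zero_of_injective (I : C) [Injective I] (Z : DerivedCategory C)
    (hZ : Z.IsGE 1) (φ : Z ⟶ (DerivedCategory.singleFunctor C 0).obj I) : φ = 0 := by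
  obtain ⟨K, hK, ⟨e⟩⟩ := Z.exists_iso_Q_obj_of_isGE 1
  let S : CochainComplex C ℤ := (CochainComplex.singleFunctor C 0).obj I
  have hS1 : S.IsStrictlyGE 0 := by dsimp [S]; infer_instance
  have hS2 : ∀ n : ℤ, Injective (S.X n) := by
    intro n
    by_cases hn : n = 0
    · subst hn
      exact Injective.of_iso (HomologicalComplex.singleObjXSelf (ComplexShape.up ℤ) 0 I).symm
        inferInstance
    · have hz : IsZero (S.X n) := HomologicalComplex.isZero_single_obj_X _ _ _ _ hn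
      exact Injective.of_iso hz.isoZero.symm inferInstance
  have hS : S.IsKInjective := CochainComplex.isKInjective_of_injective S 0
  have hbij := CochainComplex.IsKInjective.Qh_map_bijective
    ((HomotopyCategory.quotient C (ComplexShape.up ℤ)).obj K) S
  obtain ⟨ψ, hψ⟩ := hbij.2 (show (DerivedCategory.Qh.obj _ ⟶ DerivedCategory.Qh.obj _) from e.inv ≫ φ)
  obtain ⟨ψ', rfl⟩ := (HomotopyCategory.quotient C (ComplexShape.up ℤ)).map_surjective ψ
  have h0 : ψ' = 0 := by
    ext n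
    by_cases hn : n = 0
    · subst hn
      exact (K.isZero_of_isStrictlyGE 1 0 (by norm_num)).eq_of_src _ _
    · exact (HomologicalComplex.isZero_single_obj_X _ _ _ _ hn).eq_of_tgt _ _
  have h1 : e.inv ≫ φ = 0 := by
    rw [h0] at hψ
    rw [Functor.map_zero, Functor.map_zero] at hψ
    exact hψ.symm
  rw [← cancel_epi e.inv, h1, comp_zero]

end Derived

section Bounded

variable {C : Type u} [Category.{v} C] [Abelian C] [HasDerivedCategory.{w} C]

open DerivedCategory

/-- The t-structure on `D^b(C)`. -/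
noncomputable abbrev tb (C : Type u) [Category.{v} C] [Abelian C] [HasDerivedCategory.{w} C] :
    TStructure (Bounded C) := (TStructure.t (C := C)).onBounded

instance single_full : (single C).Full where
  map_surjective f := by
    obtain ⟨g, hg⟩ := (DerivedCategory.singleFunctor C 0).map_surjective (Bounded.ι.map f)
    exact ⟨g, Bounded.ι.map_injective hg⟩

instance single_faithful : (single C).Faithful where
  map_injective {_ _ f g} h :=
    (DerivedCategory.singleFunctor C 0).map_injective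
      (show (DerivedCategory.singleFunctor C 0).map f = (DerivedCategory.singleFunctor C 0).map g
        from congrArg Bounded.ι.map h)

instance single_additive : (single C).Additive where
  map_add := Bounded.ι.map_injective ((DerivedCategory.singleFunctor C 0).map_add)

instance single_isLE (X : C) : (tb C).IsLE ((single C).obj X) 0 := by
  rw [ObjectProperty.tStructure_isLE_iff]
  exact (inferInstance : ((DerivedCategory.singleFunctor C 0).obj X).IsLE 0)

instance single_isGE (X : C) : (tb C).IsGE ((single C).obj X) 0 := by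
  rw [ObjectProperty.tStructure_isGE_iff]
  exact (inferInstance : ((DerivedCategory.singleFunctor C 0).obj X).IsGE 0)

lemma exists_iso_single (Z : Bounded C) (h1 : (tb C).IsLE Z 0) (h2 : (tb C).IsGE Z 0) :
    ∃ M : C, Nonempty (Z ≅ (single C).obj M) := by
  rw [ObjectProperty.tStructure_isLE_iff] at h1
  rw [ObjectProperty.tStructure_isGE_iff] at h2
  have h1' : (Z.obj).IsLE 0 := h1
  have h2' : (Z.obj).IsGE 0 := h2
  obtain ⟨M, ⟨e⟩⟩ := exists_iso_singleFunctor_obj_of_isGE_of_isLE Z.obj 0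
  exact ⟨M, ⟨Bounded.ι.preimageIso e⟩⟩

lemma single_hom_zero (P : C) [Projective P] (Z : Bounded C) (hZ : (tb C).IsLE Z (-1))
    (φ : (single C).obj P ⟶ Z) : φ = 0 := by
  rw [ObjectProperty.tStructure_isLE_iff] at hZ
  apply Bounded.ι.map_injective
  rw [Functor.map_zero]
  exact hom_single_zero_of_projective P Z.obj hZ (Bounded.ι.map φ)

lemma hom_single_zero (I : C) [Injective I] (Z : Bounded C) (hZ : (tb C).IsGE Z 1)
    (φ : Z ⟶ (single C).obj I) : φ = 0 := by
  rw [ObjectProperty.tStructure_isGE_iff] at hZ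
  apply Bounded.ι.map_injective
  rw [Functor.map_zero]
  exact hom_to_single_zero_of_injective I Z.obj hZ (Bounded.ι.map φ)


section Tensor

variable [MonoidalCategory C] [MonoidalPreadditive C] [RigidCategory C]
  [MonoidalCategory (Bounded C)]

omit [MonoidalPreadditive C] [RigidCategory C] in
lemma tensor_heart (hS : Nonempty (single C).Monoidal) (Q : C) (Z : Bounded C)
    (h1 : (tb C).IsLE Z 0) (h2 : (tb C).IsGE Z 0) :
    (tb C).IsLE ((tensorLeft ((single C).obj Q)).obj Z) 0 ∧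
      (tb C).IsGE ((tensorLeft ((single C).obj Q)).obj Z) 0 := by
  obtain ⟨hS⟩ := hS
  obtain ⟨M, ⟨e⟩⟩ := exists_iso_single Z h1 h2
  have e' : (tensorLeft ((single C).obj Q)).obj Z ≅ (single C).obj (Q ⊗ M) :=
    (tensorLeft ((single C).obj Q)).mapIso e ≪≫ Functor.Monoidal.μIso (single C) Q M
  exact ⟨(tb C).isLE_of_iso e'.symm 0, (tb C).isGE_of_iso e'.symm 0⟩

omit [MonoidalPreadditive C] [RigidCategory C] in
lemma tensor_isLE (hS : Nonempty (single C).Monoidal) (Q : C)
    [(tensorLeft ((single C).obj Q)).CommShift ℤ] [(tensorLeft ((single C).obj Q)).IsTriangulated]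
    (Z : Bounded C) (n : ℤ) (hZ : (tb C).IsLE Z n) :
    (tb C).IsLE ((tensorLeft ((single C).obj Q)).obj Z) n := by
  obtain ⟨⟨a, ha⟩, _⟩ := Z.property
  have ha' : (tb C).IsGE Z a := by
    rw [ObjectProperty.tStructure_isGE_iff]
    exact ha
  have ha'' : (tb C).IsGE Z (min a n) := (tb C).isGE_of_ge Z (min a n) a
  exact (isLE_isGE_of_heart (tb C) (tensorLeft ((single C).obj Q))
    (fun Z h1 h2 => tensor_heart hS Q Z h1 h2) (n - min a n + 1).toNat Z (min a n) n
    (by omega) ha'' hZ).2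

omit [MonoidalPreadditive C] [RigidCategory C] in
lemma tensor_isGE (hS : Nonempty (single C).Monoidal) (Q : C)
    [(tensorLeft ((single C).obj Q)).CommShift ℤ] [(tensorLeft ((single C).obj Q)).IsTriangulated]
    (Z : Bounded C) (n : ℤ) (hZ : (tb C).IsGE Z n) :
    (tb C).IsGE ((tensorLeft ((single C).obj Q)).obj Z) n := by
  obtain ⟨_, ⟨a, ha⟩⟩ := Z.property
  have ha' : (tb C).IsLE Z a := by
    rw [ObjectProperty.tStructure_isLE_iff]
    exact ha
  have ha'' : (tb C).IsLE Z (max a n) := (tb C).isLE_of_le Z a (max a n)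
  exact (isLE_isGE_of_heart (tb C) (tensorLeft ((single C).obj Q))
    (fun Z h1 h2 => tensor_heart hS Q Z h1 h2) (max a n - n + 1).toNat Z n (max a n)
    (by omega) hZ ha'').1

omit [MonoidalPreadditive C] in
/-- Key dichotomy: for `Q` projective and injective, `Q ⊗ f` is zero or a split monomorphism. -/
lemma whisker_zero_or_split (hT : IsTensorTriangulatedExtension C) [Simple (𝟙_ C)]
    (Q : C) [Projective Q] [Injective Q] (X : Bounded C) (f : 𝟙_ (Bounded C) ⟶ X) :
    ((single C).obj Q) ◁ f = 0 ∨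
      ∃ r : ((single C).obj Q) ⊗ X ⟶ ((single C).obj Q) ⊗ 𝟙_ (Bounded C),
        ((single C).obj Q) ◁ f ≫ r = 𝟙 _ := by
  obtain ⟨_, _⟩ := hT.tensorLeft_exact ((single C).obj Q)
  have hS := hT.single_monoidal
  have hS' := hS.some
  refine split_or_zero (tb C) (tensorLeft ((single C).obj Q)) (tensor_isLE hS Q)
    (tensor_isGE hS Q) (𝟙_ (Bounded C)) ?_ ?_ ?_ ?_ X f
  · exact (tb C).isLE_of_iso (Functor.Monoidal.εIso (single C)).symm 0
  · intro Z hZ φ
    have h := single_hom_zero Q Z hZ ((ρ_ ((single C).obj Q)).inv ≫ φ)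
    rwa [← comp_zero (f := (ρ_ ((single C).obj Q)).inv), cancel_epi] at h
  · intro Z hZ φ
    have h := hom_single_zero Q Z hZ (φ ≫ (ρ_ ((single C).obj Q)).hom)
    rwa [← zero_comp (f := (ρ_ ((single C).obj Q)).hom), cancel_mono] at h
  · intro H h1 h2 h
    obtain ⟨M, ⟨e⟩⟩ := exists_iso_single H h1 h2
    obtain ⟨h', hh'⟩ := (single C).map_surjective
      ((Functor.Monoidal.εIso (single C)).inv ≫ h ≫ e.hom)
    have hh : h ≫ e.hom = (Functor.Monoidal.εIso (single C)).hom ≫ (single C).map h' := by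
      rw [hh', Iso.hom_inv_id_assoc]
    by_cases h0 : h' = 0
    · left
      rw [h0, Functor.map_zero, comp_zero] at hh
      rw [← cancel_mono e.hom, hh, zero_comp]
    · right
      have hm : Mono h' := mono_of_nonzero_from_simple h0
      have hm' : Mono (Q ◁ h') := by
        have := tensorLeft_isRightAdjoint Q
        exact (inferInstance : Mono ((tensorLeft Q).map h'))
      have hI : Injective (Q ⊗ 𝟙_ C) := Injective.of_iso (ρ_ Q).symm inferInstance
      let r' : Q ⊗ M ⟶ Q ⊗ 𝟙_ C := Injective.factorThru (𝟙 _) (Q ◁ h')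
      have hr' : Q ◁ h' ≫ r' = 𝟙 _ := Injective.comp_factorThru _ _
      refine ⟨((single C).obj Q ◁ e.hom) ≫ Functor.LaxMonoidal.μ (single C) Q M ≫
        (single C).map r' ≫ Functor.OplaxMonoidal.δ (single C) Q (𝟙_ C) ≫
        ((single C).obj Q ◁ (Functor.Monoidal.εIso (single C)).inv), ?_⟩
      have key : ((single C).obj Q) ◁ h ≫ ((single C).obj Q) ◁ e.hom ≫
          Functor.LaxMonoidal.μ (single C) Q M =
          ((single C).obj Q) ◁ (Functor.Monoidal.εIso (single C)).hom ≫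
          Functor.LaxMonoidal.μ (single C) Q (𝟙_ C) ≫ (single C).map (Q ◁ h') := by
        rw [← MonoidalCategory.whiskerLeft_comp_assoc, hh, MonoidalCategory.whiskerLeft_comp_assoc,
          Functor.LaxMonoidal.μ_natural_right]
      change ((single C).obj Q) ◁ h ≫ ((single C).obj Q ◁ e.hom) ≫ _ = _
      rw [← Category.assoc, ← Category.assoc, Category.assoc (((single C).obj Q) ◁ h), key]
      simp only [Category.assoc]
      rw [← Functor.map_comp_assoc, hr', CategoryTheory.Functor.map_id, Category.id_comp]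
      rw [Functor.Monoidal.μ_δ_assoc, ← MonoidalCategory.whiskerLeft_comp, Iso.hom_inv_id,
        MonoidalCategory.whiskerLeft_id]
      rfl


omit [MonoidalPreadditive C] [RigidCategory C] in
lemma whiskerLeft_zero (hT : IsTensorTriangulatedExtension C) (W : Bounded C) {X Y : Bounded C} :
    W ◁ (0 : X ⟶ Y) = 0 := by
  obtain ⟨_, _⟩ := hT.tensorLeft_exact W
  exact (tensorLeft W).map_zero _ _

omit [MonoidalPreadditive C] [RigidCategory C] in
lemma nilpotentOn_of_whiskerLeft_eq_zero [SymmetricCategory (Bounded C)]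
    {X : Bounded C} (f : 𝟙_ (Bounded C) ⟶ X) (W : Bounded C) (h : W ◁ f = 0) :
    NilpotentOn f W := by
  refine ⟨1, le_rfl, ?_⟩
  have h1 : f ▷ W = 0 := by
    have h2 : (β_ (𝟙_ (Bounded C)) W).hom ≫ W ◁ f = f ▷ W ≫ (β_ X W).hom :=
      (BraidedCategory.braiding_naturality_left f W).symm
    rw [h, comp_zero] at h2
    rw [← cancel_mono (β_ X W).hom, ← h2, zero_comp]
  have h3 : tensorPowMap f 1 = f ≫ (λ_ X).inv := by
    rw [leftUnitor_inv_naturality, ← MonoidalCategory.id_tensorHom]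
    rfl
  have h4 : tensorPowMap f 1 ▷ W = f ▷ W ≫ (λ_ X).inv ▷ W := by
    rw [h3]
    exact comp_whiskerRight _ _ _
  rw [h1, zero_comp] at h4
  rw [h4]
  exact comp_zero

omit [MonoidalPreadditive C] [RigidCategory C] in
lemma main_dichotomy [SymmetricCategory (Bounded C)]
    (hT : IsTensorTriangulatedExtension C)
    (W : Bounded C) (hW : ¬ IsZero W)
    (hW' : ∀ (X : Bounded C) (f : 𝟙_ (Bounded C) ⟶ X), W ◁ f = 0 ∨
      ∃ r : W ⊗ X ⟶ W ⊗ 𝟙_ (Bounded C), W ◁ f ≫ r = 𝟙 _)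
    {X Y : Bounded C} (f : 𝟙_ (Bounded C) ⟶ X) (g : 𝟙_ (Bounded C) ⟶ Y) (hfg : f ⊗ₘ g = 0) :
    W ◁ f = 0 ∨ W ◁ g = 0 := by
  rcases hW' X f with h | ⟨rf, hf⟩
  · exact Or.inl h
  rcases hW' Y g with h | ⟨rg, hg⟩
  · exact Or.inr h
  exfalso
  apply hW
  -- the isomorphism `W ⊗ (X ⊗ V) ≅ X ⊗ (W ⊗ V)`
  let c : ∀ V : Bounded C, W ⊗ (X ⊗ V) ≅ X ⊗ (W ⊗ V) := fun V =>
    (α_ W X V).symm ≪≫ whiskerRightIso (β_ W X) V ≪≫ α_ X W V
  have hc : W ◁ (X ◁ g) ≫ (c Y).hom = (c (𝟙_ _)).hom ≫ X ◁ (W ◁ g) := by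
    simp only [c, Iso.trans_hom, Iso.symm_hom, whiskerRightIso_hom, Category.assoc]
    rw [associator_inv_naturality_right_assoc, whisker_exchange_assoc,
      associator_naturality_right]
  have hR : W ◁ (X ◁ g) ≫ ((c Y).hom ≫ X ◁ rg ≫ (c (𝟙_ _)).inv) = 𝟙 _ := by
    rw [← Category.assoc, hc, Category.assoc, ← MonoidalCategory.whiskerLeft_comp_assoc, hg,
      MonoidalCategory.whiskerLeft_id, Category.id_comp, Iso.hom_inv_id]
  have h1 : W ◁ (f ⊗ₘ g) = W ◁ (f ▷ (𝟙_ (Bounded C))) ≫ W ◁ (X ◁ g) := by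
    rw [← MonoidalCategory.whiskerLeft_comp, MonoidalCategory.tensorHom_def]
  rw [hfg, whiskerLeft_zero hT] at h1
  have h2 : W ◁ (f ▷ (𝟙_ (Bounded C))) = 0 := by
    have h3 := congrArg (fun t => t ≫ ((c Y).hom ≫ X ◁ rg ≫ (c (𝟙_ _)).inv)) h1
    simp only [Category.assoc, zero_comp] at h3
    rw [hR, Category.comp_id] at h3
    exact h3.symm
  have h4 : W ◁ f = 0 := by
    have h5 : f = (ρ_ (𝟙_ (Bounded C))).inv ≫ (f ▷ (𝟙_ (Bounded C))) ≫ (ρ_ X).hom := by
      rw [rightUnitor_naturality, Iso.inv_hom_id_assoc]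
    rw [h5, MonoidalCategory.whiskerLeft_comp, MonoidalCategory.whiskerLeft_comp, h2, zero_comp,
      comp_zero]
  rw [h4, zero_comp] at hf
  have h6 : IsZero (W ⊗ 𝟙_ (Bounded C)) := by
    rw [IsZero.iff_id_eq_zero]
    exact hf.symm
  exact h6.of_iso (ρ_ W).symm

end Tensor

end Bounded

/-- **MP_93437d_al, Q1 (affirmative answer).** Let `C` be a finite symmetric tensor category over a
field `k`, and let `D^b(C)` carry a symmetric monoidal structure which is exact in each variable and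
extends the tensor product of `C`. Then there is a nonzero object `Z` of `D^b(C)` such that, for all
`f : 𝟙 ⟶ X` and `g : 𝟙 ⟶ Y` in `D^b(C)` with `f ⊗ g = 0`, `f` is `⊗`-nilpotent on `Z` or `g` is
`⊗`-nilpotent on `Z`. -/
theorem _root_.Pool.Agent.Results.MP_93437d_al.TensorNilpotence.result
    (k : Type w') [Field k] (C : Type u) [Category.{v} C] [Abelian C] [Linear k C]
    [MonoidalCategory C] [MonoidalPreadditive C] [MonoidalLinear k C] [RigidCategory C]
    [SymmetricCategory C] (hC : IsFiniteTensorCategory k C)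
    [HasDerivedCategory.{w} C] [MonoidalCategory (DerivedCategory.Bounded C)]
    [SymmetricCategory (DerivedCategory.Bounded C)]
    (hT : IsTensorTriangulatedExtension C) :
    ∃ Z : DerivedCategory.Bounded C, ¬ IsZero Z ∧
      ∀ (X Y : DerivedCategory.Bounded C) (f : 𝟙_ (DerivedCategory.Bounded C) ⟶ X)
        (g : 𝟙_ (DerivedCategory.Bounded C) ⟶ Y), f ⊗ₘ g = 0 →
          NilpotentOn f Z ∨ NilpotentOn g Z := by
  have hart := hC.artinian (𝟙_ C)
  have hep := hC.enoughProjectives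
  have hk1 : (𝟙 (𝟙_ C) : 𝟙_ C ⟶ 𝟙_ C) ≠ 0 := by
    intro h0
    have h1 := hC.end_unit.1 (show (fun a : k => (a • 𝟙 (𝟙_ C) : 𝟙_ C ⟶ 𝟙_ C)) 1 =
      (fun a : k => (a • 𝟙 (𝟙_ C) : 𝟙_ C ⟶ 𝟙_ C)) 0 by simp [h0])
    exact one_ne_zero h1
  have hu : ¬ IsZero (𝟙_ C) := fun h => hk1 (h.eq_of_src _ _)
  have hend : ∀ a : 𝟙_ C ⟶ 𝟙_ C, a ≠ 0 → IsIso a := by
    intro a ha
    obtain ⟨c, hc⟩ := hC.end_unit.2 a
    have hc' : a = c • 𝟙 (𝟙_ C) := hc.symm
    have hc0 : c ≠ 0 := by
      rintro rfl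
      exact ha (by rw [hc', zero_smul])
    refine ⟨⟨c⁻¹ • 𝟙 (𝟙_ C), ?_, ?_⟩⟩
    · rw [hc', Linear.smul_comp, Category.id_comp, smul_smul, mul_inv_cancel₀ hc0, one_smul]
    · rw [hc', Linear.comp_smul, Category.comp_id, smul_smul, mul_inv_cancel₀ hc0, one_smul]
  have hsimple : Simple (𝟙_ C) := simple_unit hu hend
  obtain ⟨Q, hQ1, hQ2, hQ3⟩ := exists_projective_injective (C := C) hu
  have hSQ : ¬ IsZero ((single C).obj Q) := by
    intro hz
    apply hQ3
    rw [IsZero.iff_id_eq_zero]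
    apply (single C).map_injective
    exact hz.eq_of_src _ _
  refine ⟨(single C).obj Q, hSQ, ?_⟩
  intro X Y f g hfg
  rcases main_dichotomy hT ((single C).obj Q) hSQ
    (fun X f => whisker_zero_or_split hT Q X f) f g hfg with h | h
  · exact Or.inl (nilpotentOn_of_whiskerLeft_eq_zero f _ h)
  · exact Or.inr (nilpotentOn_of_whiskerLeft_eq_zero g _ h)

end Pool.Agent.Results.MP_93437d_al.TensorNilpotence
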